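import Pool.Agent.Helper76_SBG.Lat
import Pool.Agent.Helper92_SBG.Str
import Pool.Agent.Helper81_SBG.Grd

/-!
Squad SBG, module CA0: the abelian case.
-/

set_option autoImplicit false

namespace Pool.Agent.SBG.H43C

open Pool.Agent.SBG

section abel

variable {k : ℕ}

lemma bz_cl (X : Set (W k)) (h : ∀ x ∈ X, ∀ y ∈ X, bz x y = 0) :
    ∀ x ∈ AddSubgroup.closure X, ∀ y ∈ AddSubgroup.closure X, bz x y = 0 := by
  have zl : ∀ y : W k, bz 0 y = 0 := fun y => by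
    have h2 := bz_add_left (0 : W k) 0 y
    rw [add_zero] at h2
    exact left_eq_add.mp h2
  have zr : ∀ y : W k, bz y 0 = 0 := fun y => by rw [bz_swap, zl, neg_zero]
  have nl : ∀ x y : W k, bz (-x) y = - bz x y := fun x y => by
    have h2 := bz_add_left (-x) x y
    rw [neg_add_cancel, zl] at h2
    exact eq_neg_of_add_eq_zero_left h2.symm
  have nr : ∀ x y : W k, bz x (-y) = - bz x y := fun x y => by
    rw [bz_swap (-y) x, nl, bz_swap x y, neg_neg]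
  intro x hx
  refine AddSubgroup.closure_induction
    (p := fun x _ => ∀ y ∈ AddSubgroup.closure X, bz x y = 0) ?_ ?_ ?_ ?_ hx
  · intro x hx y hy
    refine AddSubgroup.closure_induction (p := fun y _ => bz x y = 0) ?_ ?_ ?_ ?_ hy
    · intro y hy; exact h x hx y hy
    · exact zr x
    · intro y y' _ _ e e'; rw [bz_add_right, e, e', add_zero]
    · intro y _ e; rw [nr, e, neg_zero]
  · intro y _; exact zl y
  · intro x x' _ _ e e' y hy; rw [bz_add_left, e y hy, e' y hy, add_zero]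
  · intro x _ e y hy; rw [nl, e y hy, neg_zero]

lemma HX_sub (X : Finset (W k)) (h : ∀ x ∈ X, ∀ y ∈ X, bz x y = 0) {g : Gp k} (hg : g ∈ HX X) :
    g.x ∈ AddSubgroup.closure (X : Set (W k)) := by
  refine Subgroup.closure_induction
    (p := fun g _ => g.x ∈ AddSubgroup.closure (X : Set (W k))) ?_ ?_ ?_ ?_ hg
  · rintro _ ⟨x, hx, rfl⟩
    exact AddSubgroup.subset_closure hx
  · exact AddSubgroup.zero_mem _
  · intro g h' hg' hh' hg hh
    rw [Gp.mul_x, HX_m hg', tp_zero, Bf, bz_cl (X : Set (W k)) h _ hg _ hh, zin_zero, add_zero]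
    exact AddSubgroup.add_mem _ hg hh
  · intro g hg' hg
    rw [Gp.inv_x, HX_m hg', neg_zero, tp_zero]
    exact AddSubgroup.neg_mem _ hg

lemma sub_HX (X : Finset (W k)) (h : ∀ x ∈ X, ∀ y ∈ X, bz x y = 0) {x : W k}
    (hx : x ∈ AddSubgroup.closure (X : Set (W k))) : (⟨0, x⟩ : Gp k) ∈ HX X := by
  refine AddSubgroup.closure_induction (p := fun x _ => (⟨0, x⟩ : Gp k) ∈ HX X) ?_ ?_ ?_ ?_ hx
  · intro x hx; exact mem_HX hx
  · exact (HX X).one_mem
  · intro x y hx hy e e'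
    have h2 := (HX X).mul_mem e e'
    rwa [Gp.mul0, Bf, bz_cl (X : Set (W k)) h _ hx _ hy, zin_zero, add_zero] at h2
  · intro x _ e
    have h2 := (HX X).inv_mem e
    rwa [Gp.inv0] at h2

/-- the inclusion of the centre -/
def zinh (k : ℕ) : (Fin 2 → ℤ) →+ W k := AddMonoidHom.mk' zin zin_add

/-- the projection -/
def pvh (k : ℕ) : W k →+ V k := AddMonoidHom.mk' pv (fun _ _ => rfl)

lemma Lam_eq (X : Finset (W k)) (h : ∀ x ∈ X, ∀ y ∈ X, bz x y = 0) :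
    Lam (HX X) = (AddSubgroup.closure (X : Set (W k))).comap (zinh k) := by
  ext z
  constructor
  · intro hz
    exact HX_sub X h hz
  · intro hz
    exact sub_HX X h hz

lemma LM_eq (X : Finset (W k)) :
    LM (HX X) = (AddSubgroup.closure (X : Set (W k))).map (pvh k) := by
  rw [LM_HX, AddMonoidHom.map_closure]
  rfl

lemma relIndex_Lam (X : Finset (W k)) (h : ∀ x ∈ X, ∀ y ∈ X, bz x y = 0)
    (h0 : (AddSubgroup.closure (X : Set (W k))).relIndex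
      (sat (AddSubgroup.closure (X : Set (W k)))) ≠ 0) :
    (Lam (HX X)).relIndex (sat (Lam (HX X))) ≤ (AddSubgroup.closure (X : Set (W k))).relIndex
      (sat (AddSubgroup.closure (X : Set (W k)))) := by
  have h1 : (sat (Lam (HX X))).map (zinh k) ≤ sat (AddSubgroup.closure (X : Set (W k))) := by
    rintro _ ⟨z, ⟨m, hm, hz⟩, rfl⟩
    refine ⟨m, hm, ?_⟩
    rw [← map_nsmul]
    rw [Lam_eq X h] at hz
    exact hz
  have h2 : (Lam (HX X)).relIndex (sat (Lam (HX X))) =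
      (AddSubgroup.closure (X : Set (W k))).relIndex ((sat (Lam (HX X))).map (zinh k)) := by
    have h3 := AddSubgroup.relIndex_comap (AddSubgroup.closure (X : Set (W k))) (zinh k)
      (sat (Lam (HX X)))
    rw [← Lam_eq X h] at h3
    exact h3
  rw [h2]
  exact AddSubgroup.relIndex_le_of_le_right h1 h0

end abel

section coord

variable {k : ℕ}

lemma LQ_map (L : AddSubgroup (W k)) :
    LQ (L.map (pvh k)) = (LQ L).map (LinearMap.funLeft ℚ ℚ (Sum.inl : Ix k → Jx k)) := by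
  rw [LQ, LQ, Submodule.map_span, Set.image_image]
  congr 1
  ext v
  constructor
  · rintro ⟨_, ⟨x, hx, rfl⟩, rfl⟩
    exact ⟨x, hx, rfl⟩
  · rintro ⟨x, hx, rfl⟩
    exact ⟨pv x, ⟨x, hx, rfl⟩, rfl⟩

lemma coords (M : Submodule ℚ (Jx k → ℚ)) (IV : Finset (Ix k))
    (hc : IV.card = dm (M.map (LinearMap.funLeft ℚ ℚ (Sum.inl : Ix k → Jx k))))
    (hv : ∀ x ∈ M.map (LinearMap.funLeft ℚ ℚ (Sum.inl : Ix k → Jx k)),
      (∀ c ∈ IV, x c = 0) → x = 0) :
    ∃ I : Finset (Jx k), I.card = dm M ∧ (∀ x ∈ M, (∀ c ∈ I, x c = 0) → x = 0) ∧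
      ∑ c ∈ I, wt c ≤ ∑ c ∈ IV, wtI c + 10 := by
  classical
  obtain ⟨π, hπ⟩ : ∃ π : (Jx k → ℚ) →ₗ[ℚ] (Ix k → ℚ), π = LinearMap.funLeft ℚ ℚ Sum.inl :=
    ⟨_, rfl⟩
  have hπ' : ∀ x c, π x c = x (Sum.inl c) := by intro x c; rw [hπ]; rfl
  rw [← hπ] at hc hv
  obtain ⟨ρ, hρ⟩ : ∃ ρ : (Jx k → ℚ) →ₗ[ℚ] (Fin 2 → ℚ), ρ = LinearMap.funLeft ℚ ℚ Sum.inr :=
    ⟨_, rfl⟩
  have hρ' : ∀ x c, ρ x c = x (Sum.inr c) := by intro x c; rw [hρ]; rfl
  have hrn := LinearMap.finrank_range_add_finrank_ker (π.domRestrict M)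
  have hr : LinearMap.range (π.domRestrict M) = M.map π := LinearMap.range_domRestrict M π
  rw [hr] at hrn
  obtain ⟨g, hg⟩ : ∃ g : LinearMap.ker (π.domRestrict M) →ₗ[ℚ] (Fin 2 → ℚ),
      g = ρ.comp (M.subtype.comp (LinearMap.ker (π.domRestrict M)).subtype) := ⟨_, rfl⟩
  have hg' : ∀ x, g x = ρ ((x : M) : Jx k → ℚ) := by intro x; rw [hg]; rfl
  have ext2 : ∀ x : Jx k → ℚ, π x = 0 → ρ x = 0 → x = 0 := by
    intro x h1 h2
    funext c
    rcases c with c | c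
    · exact (hπ' x c).symm.trans (congrFun h1 c)
    · exact (hρ' x c).symm.trans (congrFun h2 c)
  have hinj : Function.Injective g := by
    intro x y hxy
    rw [hg', hg'] at hxy
    have hx0 : π ((x : M) : Jx k → ℚ) = 0 := x.2
    have hy0 : π ((y : M) : Jx k → ℚ) = 0 := y.2
    have h : ((x : M) : Jx k → ℚ) - ((y : M) : Jx k → ℚ) = 0 :=
      ext2 _ (by rw [map_sub, hx0, hy0, sub_zero]) (by rw [map_sub, hxy, sub_self])
    exact Subtype.ext (Subtype.ext (sub_eq_zero.1 h))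
  have hfg : Module.finrank ℚ (LinearMap.range g) =
      Module.finrank ℚ (LinearMap.ker (π.domRestrict M)) := LinearMap.finrank_range_of_inj hinj
  obtain ⟨IZ, hZ1, hZ2, -⟩ := H81.grd (Fin 2) (LinearMap.range g) (fun _ => 0)
  refine ⟨IV.disjSum IZ, ?_, ?_, ?_⟩
  · rw [Finset.card_disjSum, hc, hZ1]
    show Module.finrank ℚ (M.map π) + Module.finrank ℚ (LinearMap.range g) = Module.finrank ℚ M
    rw [hfg]
    exact hrn
  · intro x hx hI
    have h1 : π x = 0 := by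
      apply hv _ ⟨x, hx, rfl⟩
      intro c hc'
      rw [hπ']
      exact hI _ (Finset.inl_mem_disjSum.2 hc')
    have h2 : ρ x = 0 := by
      have h3 : ρ x ∈ LinearMap.range g := ⟨⟨⟨x, hx⟩, h1⟩, by rw [hg']⟩
      apply hZ2 _ h3
      intro c hc'
      rw [hρ']
      exact hI _ (Finset.inr_mem_disjSum.2 hc')
    exact ext2 x h1 h2
  · rw [Finset.sum_disjSum]
    refine Nat.add_le_add (le_refl _) ?_
    have h3 : ∑ c ∈ IZ, wt (k := k) (Sum.inr c) = IZ.card * 5 := by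
      rw [Finset.sum_const_nat (m := 5)]
      intro c _; rfl
    rw [h3]
    have h4 : IZ.card ≤ 2 := by
      have := Finset.card_le_univ IZ
      rwa [Fintype.card_fin] at this
    omega

end coord

lemma step {k n C1 C2 q ε : ℕ} (hk : 100 ≤ k) (hn : 1 ≤ n) (hSep : SepStmt) (hIdx : IdxStmt)
    (H : Subgroup (Gp k)) (hTr : Tr H 1) (hq : 0 < q) (hε : 0 < ε)
    (hq2 : q ^ 2 ≤ C2 ^ 2 * n ^ (67 * k + 32)) (hε2 : ε ≤ C1 * n ^ (46 * k + 6))
    (χ : (Fin 2 → ℤ) →+ ZMod q) (hχ : ∀ z ∈ Lam H, χ z = 0)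
    (hs : ∀ v ∈ sat (LM H), ε • v ∈ LM H) (z : Fin 2 → ℤ) (hz : χ z ≠ 0) :
    Sm (40320 ^ 2 * C1 ^ 10 * (C2 ^ 2) ^ (16 * k + 5)) n H ⟨0, zin z⟩ := by
  refine ⟨_, hSep k H 1 hTr q ε hq hε χ hχ hs z hz, ?_⟩
  have h1 := (hIdx k q hq χ).2.1
  have h2 : 1 * 40320 * (q * ε) ^ 5 * (Rc (k := k) χ).index ≤
      40320 * (q * ε) ^ 5 * q ^ (16 * k) := by
    rw [one_mul]
    exact Nat.mul_le_mul_left _ h1
  have hexp : 10 * (46 * k + 6) + (67 * k + 32) * (16 * k + 5) ≤ (68 * k + 23) * (16 * k + 5) := by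
    nlinarith
  calc (1 * 40320 * (q * ε) ^ 5 * (Rc (k := k) χ).index) ^ 2
      ≤ (40320 * (q * ε) ^ 5 * q ^ (16 * k)) ^ 2 := Nat.pow_le_pow_left h2 2
    _ = 40320 ^ 2 * ε ^ 10 * (q ^ 2) ^ (16 * k + 5) := by ring
    _ ≤ 40320 ^ 2 * (C1 * n ^ (46 * k + 6)) ^ 10 * (C2 ^ 2 * n ^ (67 * k + 32)) ^ (16 * k + 5) := by
        exact Nat.mul_le_mul (Nat.mul_le_mul_left _ (Nat.pow_le_pow_left hε2 10))
          (Nat.pow_le_pow_left hq2 _)
    _ = 40320 ^ 2 * C1 ^ 10 * (C2 ^ 2) ^ (16 * k + 5) *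
        n ^ (10 * (46 * k + 6) + (67 * k + 32) * (16 * k + 5)) := by
        rw [mul_pow C1, mul_pow (C2 ^ 2), ← pow_mul n, ← pow_mul n, pow_add n, mul_comm 10]
        ring
    _ ≤ 40320 ^ 2 * C1 ^ 10 * (C2 ^ 2) ^ (16 * k + 5) * n ^ ((68 * k + 23) * (16 * k + 5)) :=
        Nat.mul_le_mul_left _ (Nat.pow_le_pow_right hn hexp)

/-- CA0 -/
theorem ca0 (hChi : ChiStmt) (hSep : SepStmt) (hIdx : IdxStmt) (hCru : CruStmt) (hTor : TorStmt)
    (hWg0 : Wg0Stmt) : Ca0Stmt := by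
  classical
  intro k A hk
  obtain ⟨C1, hC1⟩ := hCru k A 0
  obtain ⟨C2, hC2⟩ : ∃ C2 : ℕ, C2 = (19 * k + 5).factorial * (A + 1) ^ (19 * k + 5) := ⟨_, rfl⟩
  refine ⟨40320 ^ 2 * C1 ^ 10 * (C2 ^ 2) ^ (16 * k + 5), ?_⟩
  intro n hn X hX hab z hz hz'
  -- ε
  have hLMe : LM (HX X) = AddSubgroup.closure ((X.image pv : Finset (V k)) : Set (V k)) := by
    rw [LM_HX, Finset.coe_image]
  obtain ⟨e0, e1⟩ := hC1 n hn (X.image pv) (by
    intro x hx c
    obtain ⟨y, hy, rfl⟩ := Finset.mem_image.1 hx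
    exact hX y hy (Sum.inl c))
  rw [← hLMe] at e0 e1
  rw [zero_mul, add_zero] at e1
  have es : ∀ v ∈ sat (LM (HX X)), (LM (HX X)).relIndex (sat (LM (HX X))) • v ∈ LM (HX X) := by
    intro v hv
    have h1 := ((LM (HX X)).addSubgroupOf (sat (LM (HX X)))).nsmul_index_mem ⟨v, hv⟩
    exact h1
  -- coordinates
  have hiso : ∀ x ∈ LQ (LM (HX X)), ∀ y ∈ LQ (LM (HX X)), bf0 x y = 0 ∧ bf1 x y = 0 := by
    have hb : ∀ x ∈ LM (HX X), ∀ y ∈ LM (HX X), bf0 x y = 0 ∧ bf1 x y = 0 := by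
      rw [LM_eq]
      rintro _ ⟨x, hx, rfl⟩ _ ⟨y, hy, rfl⟩
      have h1 := bz_cl (X : Set (W k)) hab x hx y hy
      exact ⟨congrFun h1 0, congrFun h1 1⟩
    have i0 := H76.iso_LQ 1 0 (LM (HX X)) (by
      intro x hx y hy
      rw [H76.lz, (hb x hx y hy).1]; simp)
    have i1 := H76.iso_LQ 0 1 (LM (HX X)) (by
      intro x hx y hy
      rw [H76.lz, (hb x hx y hy).2]; simp)
    intro x hx y hy
    have j0 := i0 x hx y hy
    have j1 := i1 x hx y hy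
    simp only [Int.cast_one, Int.cast_zero, one_mul, zero_mul, add_zero, zero_add] at j0 j1
    exact ⟨j0, j1⟩
  obtain ⟨IV, v1, v2, v3⟩ := (hWg0 k (LQ (LM (HX X)))).2 hiso
  rw [LM_eq, LQ_map] at v1 v2
  obtain ⟨I, i1, i2, i3⟩ := coords (LQ (AddSubgroup.closure (X : Set (W k)))) IV v1 v2
  -- the torsion
  obtain ⟨t0, t1⟩ := hTor (Jx k) X (fun c => A * n ^ (wt c)) (by
    intro x hx c
    push_cast
    exact hX x hx c) _ rfl I i1 i2
  have hcard : Fintype.card (Jx k) = 19 * k + 5 := by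
    have h19 : Fintype.card Sy = 19 := rfl
    rw [Fintype.card_sum, Fintype.card_sum, Fintype.card_prod, Fintype.card_fin, Fintype.card_fin,
      Fintype.card_fin, h19]
    ring
  have hI : I.card ≤ 19 * k + 5 := by
    rw [← hcard]; exact Finset.card_le_univ I
  have t2 : (AddSubgroup.closure (X : Set (W k))).relIndex
      (sat (AddSubgroup.closure (X : Set (W k)))) ≤ C2 * n ^ (∑ c ∈ I, wt c) := by
    refine t1.trans ?_
    rw [Finset.prod_mul_distrib, Finset.prod_const, Finset.prod_pow_eq_pow_sum, hC2, ← mul_assoc]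
    refine Nat.mul_le_mul_right _ (Nat.mul_le_mul (Nat.factorial_le hI) ?_)
    exact (Nat.pow_le_pow_left (Nat.le_succ A) _).trans (Nat.pow_le_pow_right (Nat.succ_pos A) hI)
  have t3 := (relIndex_Lam X hab t0).trans t2
  have t4 : (Lam (HX X)).relIndex (sat (Lam (HX X))) ^ 2 ≤ C2 ^ 2 * n ^ (67 * k + 32) := by
    calc (Lam (HX X)).relIndex (sat (Lam (HX X))) ^ 2
        ≤ (C2 * n ^ (∑ c ∈ I, wt c)) ^ 2 := Nat.pow_le_pow_left t3 2
      _ = C2 ^ 2 * n ^ (2 * ∑ c ∈ I, wt c) := by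
          rw [mul_pow, ← pow_mul, mul_comm 2]
      _ ≤ C2 ^ 2 * n ^ (67 * k + 32) :=
          Nat.mul_le_mul_left _ (Nat.pow_le_pow_right hn (by omega))
  -- the character
  obtain ⟨hq0, χ, hχ, hχz⟩ := hChi (Fin 2) (Lam (HX X)) z hz hz'
  exact step hk hn hSep hIdx (HX X) (Tr_HX X) (Nat.pos_of_ne_zero hq0) (Nat.pos_of_ne_zero e0)
    t4 e1 χ hχ es z hχz

end Pool.Agent.SBG.H43C
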