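import Pool.Agent.Helper92_SBG.Rd

/-!
Squad SBG, module SEP: separation of a central element.
-/

set_option autoImplicit false

namespace Pool.Agent.SBG.H43

open Pool.Agent.SBG

variable {k : ℕ}

/-- the form in its first variable -/
def bzL (y : W k) : W k →+ (Fin 2 → ℤ) :=
  AddMonoidHom.mk' (fun x => bz x y) (fun x x' => bz_add_left x x' y)

/-- the form in its second variable -/
def bzR (x : W k) : W k →+ (Fin 2 → ℤ) :=
  AddMonoidHom.mk' (fun y => bz x y) (fun y y' => bz_add_right x y y')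

lemma bz_zero_left (y : W k) : bz 0 y = 0 := map_zero (bzL y)

lemma bz_nsmul_left (n : ℕ) (x y : W k) : bz (n • x) y = n • bz x y := map_nsmul (bzL y) n x

lemma bz_neg_left (x y : W k) : bz (-x) y = - bz x y := map_neg (bzL y) x

lemma bz_nsmul_right (n : ℕ) (x y : W k) : bz x (n • y) = n • bz x y := map_nsmul (bzR x) n y

lemma bz_zin_left (z : Fin 2 → ℤ) (y : W k) : bz (zin z) y = 0 := by
  rw [bz_congr (x' := 0) (y' := y) (by simp) rfl, bz_zero_left]

variable {q : ℕ} (χ : (Fin 2 → ℤ) →+ ZMod q)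

lemma mem_Rc {x : W k} : x ∈ Rc χ ↔ ∀ y, χ (bz x y) = 0 := Iff.rfl

lemma q_smul (u : Fin 2 → ℤ) : χ (q • u) = 0 := by
  rw [map_nsmul, nsmul_eq_mul, ZMod.natCast_self, zero_mul]

lemma zin_mem_Rc (z : Fin 2 → ℤ) : (zin z : W k) ∈ Rc χ := by
  intro y
  rw [bz_zin_left, map_zero]

lemma q_mem_Rc (w : W k) : q • w ∈ Rc χ := by
  intro y
  rw [bz_nsmul_left, q_smul]

lemma Dn_mem_Rc {x : W k} (hx : x ∈ Rc χ) : Dn x ∈ Rc χ := by
  intro y
  have h1 : tp 1 (tp (-1) y) = y := tp_tp_neg 1 y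
  have h2 : bz (x + Dn x) y = bz x (tp (-1) y) := by
    rw [← bz_T x (tp (-1) y), ← tp_one (tp (-1) y), h1]
  rw [bz_add_left] at h2
  have h3 := congrArg χ h2
  rw [map_add, hx y, hx (tp (-1) y), zero_add] at h3
  exact h3

lemma Rc_index (hq : 0 < q) : (Rc (k := k) χ).index ≠ 0 := by
  have : NeZero q := ⟨hq.ne'⟩
  let red : W k →+ (Jx k → ZMod q) :=
    AddMonoidHom.mk' (fun x c => ((x c : ℤ) : ZMod q)) (fun x y => by
      funext c; simp)
  have h1 : red.ker ≤ Rc χ := by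
    intro x hx
    have h2 : ∀ c, (q : ℤ) ∣ x c := by
      intro c
      have := congrFun (AddMonoidHom.mem_ker.1 hx) c
      exact (ZMod.intCast_zmod_eq_zero_iff_dvd _ _).1 this
    choose y hy using h2
    have h3 : x = q • (y : W k) := by
      funext c
      rw [hy c]
      simp
    rw [h3]
    exact q_mem_Rc χ y
  have : red.ker.FiniteIndex := AddSubgroup.finiteIndex_ker red
  have := AddSubgroup.finiteIndex_of_le h1
  exact AddSubgroup.FiniteIndex.index_ne_zero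

/-- the subgroup `S₀` -/
def S0 (H : Subgroup (Gp k)) (E : ℕ) : AddSubgroup (W k) where
  carrier := {x | ∃ h ∈ H, h.m = 0 ∧ h.x ∈ Rc χ ∧ ∃ z : Fin 2 → ℤ, χ z = 0 ∧ ∃ w : W k,
    x = h.x + zin z + E • w}
  zero_mem' := ⟨1, H.one_mem, rfl, (Rc χ).zero_mem, 0, map_zero _, 0, by simp⟩
  add_mem' := by
    rintro _ _ ⟨h, hh, h0, hR, z, hz, w, rfl⟩ ⟨h', hh', h0', hR', z', hz', w', rfl⟩
    have e : (h * h').x = h.x + h'.x + Bf h.x h'.x := by
      rw [Gp.mul_x, h0, tp_zero]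
    refine ⟨h * h', H.mul_mem hh hh', by simp [h0, h0'], ?_, z + z' - bz h.x h'.x, ?_, w + w', ?_⟩
    · rw [e]
      exact (Rc χ).add_mem ((Rc χ).add_mem hR hR') (zin_mem_Rc χ _)
    · rw [map_sub, map_add, hz, hz', hR h'.x]; simp
    · rw [e, sub_eq_add_neg, zin_add, zin_add, zin_neg, smul_add, Bf]
      abel
  neg_mem' := by
    rintro _ ⟨h, hh, h0, hR, z, hz, w, rfl⟩
    have e : (h⁻¹).x = -h.x := by
      rw [Gp.inv_x, h0, neg_zero, tp_zero]
    refine ⟨h⁻¹, H.inv_mem hh, by simp [h0], ?_, -z, by rw [map_neg, hz, neg_zero], -w, ?_⟩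
    · rw [e]; exact (Rc χ).neg_mem hR
    · rw [e, zin_neg, smul_neg]
      abel

/-- SEP -/
theorem sep (hSp2 : Sp2Stmt) (hFch : FchStmt) : SepStmt := by
  intro k H a₀ hTr q ε hq hε χ hχ hsat z hz
  obtain ⟨E, hE⟩ : ∃ E : ℕ, E = q * ε := ⟨_, rfl⟩
  have hE0 : 0 < E := by rw [hE]; exact Nat.mul_pos hq hε
  have hER : ∀ w : W k, E • w ∈ Rc χ := by
    intro w
    rw [hE, mul_smul]
    exact q_mem_Rc χ (ε • w)
  have hS0R : S0 χ H E ≤ Rc χ := by
    rintro _ ⟨h, hh, h0, hR, z', hz', w, rfl⟩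
    exact (Rc χ).add_mem ((Rc χ).add_mem hR (zin_mem_Rc χ _)) (hER w)
  have hzS : (zin z : W k) ∉ S0 χ H E := by
    rintro ⟨h, hh, h0, hR, z', hz', w, e⟩
    have e1 : h.x = zin (z - z') - E • w := by
      rw [sub_eq_add_neg z, zin_add, zin_neg, e]; abel
    have e2 : pv h.x = -(E • pv w) := by
      rw [e1, pv_sub, pv_zin, zero_sub]; rfl
    have e3 : pv w ∈ sat (LM H) := by
      refine ⟨E, hE0, ?_⟩
      have h1 : pv h.x ∈ LM H := ⟨h, hh, h0, rfl⟩
      rw [e2] at h1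
      have h2 := (LM H).neg_mem h1
      rwa [neg_neg] at h2
    obtain ⟨h', hh', h0', e4⟩ := hsat _ e3
    obtain ⟨z'', hz''⟩ : ∃ z'' : Fin 2 → ℤ, h'.x = ε • w + zin z'' := by
      refine ⟨pz h'.x - ε • pz w, W_ext ?_ ?_⟩
      · rw [e4]
        rw [pv_add, pv_zin, add_zero]; rfl
      · rw [pz_add, pz_zin]
        have : pz (ε • w) = ε • pz w := rfl
        rw [this]; abel
    have e5 : h' = ⟨0, ε • w + zin z''⟩ := by
      rw [Gp.eta0 h0', hz'']
    have e6 : h = ⟨0, zin (z - z') - E • w⟩ := by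
      rw [Gp.eta0 h0, e1]
    have e7 : h * h' ^ q ∈ H := H.mul_mem hh (H.pow_mem hh' q)
    have e8 : h * h' ^ q = ⟨0, zin (z - z' + q • z'')⟩ := by
      rw [e5, e6, Gp.pow0, Gp.mul0]
      have b0 : Bf (zin (z - z') - E • w) (q • (ε • w + zin z'')) = 0 := by
        rw [Bf_sub_left, Bf_zin_left, Bf_nsmul_right, Bf_nsmul_left, Bf_add_right, Bf_zin_right,
          Bf_nsmul_right, Bf_self]
        simp
      rw [b0]
      congr 1
      have c1 : (zin (z - z' + q • z'') : W k) = zin (z - z') + q • zin z'' := by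
        rw [zin_add]
        congr 1
        funext c
        rcases c with c | c <;> simp [zin]
      rw [c1, smul_add, ← mul_smul, ← hE]
      abel
    rw [e8] at e7
    have e9 := hχ _ e7
    rw [map_add, q_smul, add_zero, map_sub, hz', sub_zero] at e9
    exact hz e9
  -- the character of R / S0
  have hkill : ∀ x : (Rc (k := k) χ) ⧸ ((S0 χ H E).addSubgroupOf (Rc χ)), E • x = 0 := by
    intro x
    obtain ⟨y, rfl⟩ := QuotientAddGroup.mk_surjective x
    rw [← QuotientAddGroup.mk_nsmul, QuotientAddGroup.eq_zero_iff, AddSubgroup.mem_addSubgroupOf]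
    refine ⟨1, H.one_mem, rfl, (Rc χ).zero_mem, 0, map_zero _, (y : W k), ?_⟩
    simp
  have hne : (QuotientAddGroup.mk (⟨zin z, zin_mem_Rc χ z⟩ : Rc (k := k) χ) :
      (Rc (k := k) χ) ⧸ ((S0 χ H E).addSubgroupOf (Rc χ))) ≠ 0 := by
    rw [Ne, QuotientAddGroup.eq_zero_iff, AddSubgroup.mem_addSubgroupOf]
    exact hzS
  obtain ⟨f, hf⟩ := hFch _ E hE0 hkill _ hne
  have : NeZero E := ⟨hE0.ne'⟩
  let g : (Rc (k := k) χ) →+ ZMod E :=
    f.comp (QuotientAddGroup.mk' ((S0 χ H E).addSubgroupOf (Rc χ)))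
  have hg : ∀ x : Rc (k := k) χ, (x : W k) ∈ S0 χ H E → g x = 0 := by
    intro x hx
    have : (QuotientAddGroup.mk' ((S0 χ H E).addSubgroupOf (Rc χ))) x = 0 := by
      rw [QuotientAddGroup.mk'_apply, QuotientAddGroup.eq_zero_iff, AddSubgroup.mem_addSubgroupOf]
      exact hx
    simp only [g, AddMonoidHom.comp_apply, this, map_zero]
  have hP1 : ∀ x : W k, x ∈ S0 χ H E → x ∈ (g.ker).map (Rc χ).subtype := by
    intro x hx
    exact ⟨⟨x, hS0R hx⟩, hg _ hx, rfl⟩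
  have hPR : (g.ker).map (Rc χ).subtype ≤ Rc χ := by
    rintro _ ⟨x, _, rfl⟩
    exact x.2
  have key := hSp2 k H a₀ hTr (Rc χ) ((g.ker).map (Rc χ).subtype) E hE0 hPR (Rc_index χ hq) ?_
    (fun x hx => Dn_mem_Rc χ hx) (fun x y => zin_mem_Rc χ _) ?_ ?_ ?_ (zin z) (zin_mem_Rc χ z) ?_
  · rw [hE] at key
    exact key
  · have h0 : ((g.ker).map (Rc χ).subtype).addSubgroupOf (Rc χ) = g.ker :=
      AddSubgroup.comap_map_eq_self_of_injective (Rc χ).subtype_injective g.ker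
    rw [AddSubgroup.relIndex, h0, AddSubgroup.index_ker]
    calc Nat.card g.range ≤ Nat.card (ZMod E) :=
          Nat.card_le_card_of_injective _ g.range.subtype_injective
      _ = E := Nat.card_zmod E
  · intro w
    exact hP1 _ ⟨1, H.one_mem, rfl, (Rc χ).zero_mem, 0, map_zero _, w, by simp⟩
  · intro x hx y
    exact hP1 _ ⟨1, H.one_mem, rfl, (Rc χ).zero_mem, bz x y, hx y, 0, by simp [Bf]⟩
  · intro x hx hxH
    exact hP1 _ ⟨⟨0, x⟩, hxH, rfl, hx, 0, map_zero _, 0, by simp⟩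
  · rintro ⟨x, hx, hxz⟩
    have : x = ⟨zin z, zin_mem_Rc χ z⟩ := Subtype.ext hxz
    rw [this] at hx
    exact hf hx

end Pool.Agent.SBG.H43
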